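import Pool.Agent.Helper65.HF.StC

/-!
Project HF, module REG: equality of counts gives the extension property.
-/

set_option autoImplicit false

namespace Pool.Agent.Helper79.HF

open Pool.Agent.Helper65.HF

private theorem reg_srt {l : List ℕ} {b : ℕ} (h : Srt l) (hb : ∀ x ∈ l, x < b + 1) :
    Srt (l ++ [b]) := by
  unfold Srt at h ⊢
  rw [List.pairwise_append]
  refine ⟨h, List.pairwise_singleton _ _, ?_⟩
  intro x hx y hy
  rw [List.mem_singleton] at hy
  subst hy
  exact Nat.lt_succ_iff.1 (hb x hx)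

theorem hREG : Pool.Agent.Helper65.HF.sREG := by
  classical
  intro hLST St hPre b s hcount l hl hSt
  have h1 := hLST.1 b s St
  have h2 : num (srt (b + 1) s) (fun l => St (l ++ [b])) = num (srt (b + 1) s) St := by omega
  unfold num at h2
  have hsub : (srt (b + 1) s).filter (fun l => St (l ++ [b])) ⊆ (srt (b + 1) s).filter St := by
    intro m hm
    rw [Finset.mem_filter] at hm ⊢
    obtain ⟨-, hm2, hm3⟩ := mem_srt.1 hm.1
    exact ⟨hm.1, hPre m b (reg_srt hm2 hm3) hm.2⟩
  have h3 := Finset.eq_of_subset_of_card_le hsub h2.symm.le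
  have h5 : l ∈ (srt (b + 1) s).filter St := Finset.mem_filter.2 ⟨hl, hSt⟩
  rw [← h3, Finset.mem_filter] at h5
  exact h5.2

end Pool.Agent.Helper79.HF
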